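import Pool.Agent.CTM.Pub
import Pool.Agent.CTM.Bridge
import Pool.Agent.CTM.StmtL
import Pool.Agent.CTM.HC
import Pool.Agent.CTM.Gen
import Pool.Agent.CTM.Chk
import Pool.Agent.CTM.Forcing
import Pool.Agent.CTM.FD0
import Pool.Agent.CTM.Ext
import Pool.Agent.CTM.Cover
import Pool.Agent.CTM.Pos
import Pool.Agent.CTM.Greals
import Pool.Agent.CTM.CCC
import Pool.Agent.CTM.Rigid
import Pool.Agent.CTM.Kap
import Pool.Agent.CTM.SO1
import Pool.Agent.CTM.SO2
import Pool.Agent.CTM.Fam
import Pool.Agent.CTM.Typ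
import Pool.Agent.CTM.Sml

/-!
MP_ea2134_lc, Q1: the negation of (S) is consistent with ZFC. There is a countable transitive model
`N` of ZFC in which there are reals `a`, `b` such that `a` is not typical, `b` is not `a`-typical,
and `b` is typical.

Mathematics and architecture: helper73. Formalisation: helper73 and crew (helpers 7, 16, 22, 24,
25, 42, 48, 53, 54, 57, 59, 60, 63, 65, 75, 79, 88, 95, 96).
-/

set_option autoImplicit false

namespace Pool.Agent.Results.MP_ea2134_lc.NegationConsistent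

open Pool.Agent.CTM.Pub

/-- There is a countable transitive model `N` of ZFC with reals `a`, `b` such that, in `N`, `a` is
not typical, `b` is not typical over `a` (that is, `b ∈ con(a)`), but `b` is typical: the
statement (S) fails in `N`. -/
theorem result :
    ∃ N : Set ZFSet.{0}, N.Countable ∧ ModelZFC N ∧ ∃ a ∈ Reals N, ∃ b ∈ Reals N,
      ¬ Typical N 0 Fin.elim0 a ∧ ¬ Typical N 1 (fun _ => a) b ∧ Typical N 0 Fin.elim0 b := by
  have hF : CTM.Stmt_forceD0 := CTM.stmt_forceD0 CTM.stmt_forcing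
  have hcov : CTM.Stmt_cover := CTM.stmt_cover hF CTM.stmt_generic CTM.stmt_chk
  obtain ⟨N, h1, h2, a, ha, b, hb, h3, h4, h5⟩ :=
    CTM.final_of CTM.stmt_L CTM.stmt_HC CTM.stmt_generic CTM.stmt_ext hcov
      (CTM.stmt_omega1 CTM.stmt_ext hcov) (CTM.stmt_nice hF CTM.stmt_chk) CTM.stmt_pos
      CTM.stmt_greals CTM.ccc CTM.stmt_rigid CTM.stmt_kap CTM.so1 CTM.so2 CTM.stmt_family
      CTM.stmt_typical CTM.stmt_small CTM.stmt_cantor
  exact CTM.Bridge.final h1 h2 ha hb h3 h4 h5

end Pool.Agent.Results.MP_ea2134_lc.NegationConsistent
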